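import Pool.Agent.Lib.MP_b5021c_nt.IfaceB
import Pool.Agent.Lib.MP_b5021c_nt.B.H36.Evr

/-!
# MP_b5021c_nt, board b5: normal form of elements of `RO O`, `M` as a Mahler measure of a polynomial;
rows M1R (`M1S`) and MMO (`MmonoS`)
-/

namespace Pool.Agent.B5.H70

open scoped LaurentPolynomial
open Polynomial Pool.Agent.B5

section

variable {O : Type} [CommRing O]

/-- Normal form of a non-zero Laurent polynomial. -/
theorem normalO (f : RO O) (hf : f ≠ 0) :
    ∃ (n : ℤ) (p : O[X]), p.coeff 0 ≠ 0 ∧ f = LaurentPolynomial.T n * Polynomial.toLaurent p := by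
  obtain ⟨k, f', hf'⟩ := f.exists_T_pow
  have hf0 : f' ≠ 0 := by
    rintro rfl
    rw [map_zero] at hf'
    have h1 : f * LaurentPolynomial.T (k : ℤ) * LaurentPolynomial.T (-(k : ℤ)) = 0 := by
      rw [← hf', zero_mul]
    rw [mul_assoc, ← LaurentPolynomial.T_add, add_neg_cancel, LaurentPolynomial.T_zero, mul_one] at h1
    exact hf h1
  obtain ⟨q, hq, hq2⟩ := exists_eq_pow_rootMultiplicity_mul_and_not_dvd f' hf0 0
  rw [map_zero, sub_zero] at hq hq2
  refine ⟨(f'.rootMultiplicity 0 : ℤ) - k, q, ?_, ?_⟩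
  · intro h0
    exact hq2 (X_dvd_iff.mpr h0)
  · have h1 : f = Polynomial.toLaurent f' * LaurentPolynomial.T (-(k : ℤ)) := by
      rw [hf', mul_assoc, ← LaurentPolynomial.T_add, add_neg_cancel, LaurentPolynomial.T_zero, mul_one]
    have h2 : Polynomial.toLaurent f' = LaurentPolynomial.T (f'.rootMultiplicity 0 : ℤ)
        * Polynomial.toLaurent q := by
      conv_lhs => rw [hq]
      rw [map_mul, Polynomial.toLaurent_X_pow]
    rw [h1, h2, sub_eq_add_neg, LaurentPolynomial.T_add]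
    ring

end

section

variable {O : Type} [CommRing O] [Coef O]

/-- Value of `T^n q` on the circle. -/
theorem evR_T_mul (z : Circle) (n : ℤ) (q : O[X]) :
    evR z (LaurentPolynomial.T n * Polynomial.toLaurent q : RO O)
      = (z : ℂ) ^ n * (q.map (Coef.emb : O →+* ℂ)).eval (z : ℂ) := by
  rw [map_mul]
  congr 1
  · unfold evR
    rw [LaurentPolynomial.eval₂_T]
    simp
  · unfold evR
    rw [LaurentPolynomial.eval₂_toLaurent, eval₂_eq_eval_map]
    simp

theorem norm_evR_T_mul (z : Circle) (n : ℤ) (q : O[X]) :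
    ‖evR z (LaurentPolynomial.T n * Polynomial.toLaurent q : RO O)‖
      = ‖(q.map (Coef.emb : O →+* ℂ)).eval (z : ℂ)‖ := by
  rw [evR_T_mul, norm_mul, norm_zpow, Circle.norm_coe, one_zpow, one_mul]

/-- `evL` and `evR` agree on the circle. -/
theorem evL_eq (z : ℂ) (hz : ‖z‖ = 1) (p : RO O) :
    evL z p = evR (⟨z, mem_sphere_zero_iff_norm.mpr hz⟩ : Circle) p := by
  rw [H36.evR_eq]
  rfl

/-- `M (T^n q)` is the Mahler measure of `q`. -/
theorem M_T_mul (n : ℤ) (q : O[X]) (hq : q ≠ 0) :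
    M (LaurentPolynomial.T n * Polynomial.toLaurent q : RO O)
      = (q.map (Coef.emb : O →+* ℂ)).mahlerMeasure := by
  have hq2 : q.map (Coef.emb : O →+* ℂ) ≠ 0 := (Polynomial.map_ne_zero_iff emb_inj).mpr hq
  rw [mahlerMeasure_def_of_ne_zero hq2, M, Real.circleAverage_def]
  congr 2
  rw [intervalIntegral.integral_congr]
  intro x _
  have hz : ‖circleMap 0 1 x‖ = 1 := by simp
  simp only
  rw [evL_eq _ hz, norm_evR_T_mul]

end

section

variable {O : Type} [CommRing O] [Coef O]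

/-- An element of modulus one of `O` is a unit. -/
theorem unit_of_norm (a : O) (ha : ‖(Coef.emb a : ℂ)‖ = 1) : IsUnit a := by
  apply IsUnit.of_mul_eq_one (Coef.conj a)
  apply emb_inj
  rw [map_mul, Coef.emb_conj, Complex.mul_conj, map_one, Complex.normSq_eq_norm_sq, ha]
  norm_num

theorem prod_lt_one {s : Multiset ℂ} (h1 : ∀ r ∈ s, ‖r‖ ≤ 1) (h2 : ∃ r ∈ s, ‖r‖ < 1) :
    ‖s.prod‖ < 1 := by
  have hle : ∀ t : Multiset ℂ, (∀ r ∈ t, ‖r‖ ≤ 1) → ‖t.prod‖ ≤ 1 := by
    intro t
    induction t using Multiset.induction_on with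
    | empty => intro _; simp
    | cons a t ih =>
      intro h
      rw [Multiset.prod_cons, norm_mul]
      have h3 := h a (Multiset.mem_cons_self a t)
      have h4 := ih (fun r hr => h r (Multiset.mem_cons_of_mem hr))
      exact mul_le_one₀ h3 (norm_nonneg _) h4
  obtain ⟨r, hr, hr1⟩ := h2
  obtain ⟨t, rfl⟩ := Multiset.exists_cons_of_mem hr
  rw [Multiset.prod_cons, norm_mul]
  have h4 := hle t (fun x hx => h1 x (Multiset.mem_cons_of_mem hx))
  have h5 := norm_nonneg r
  have h6 := norm_nonneg t.prod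
  nlinarith

end

theorem m1r : M1S := by
  intro O _ _ _ _ p hp hM hz
  obtain ⟨n, q, hq0, rfl⟩ := normalO p hp
  have hq : q ≠ 0 := by
    rintro rfl
    exact hq0 (by simp)
  rw [M_T_mul n q hq] at hM
  set Q : ℂ[X] := q.map (Coef.emb : O →+* ℂ) with hQ
  have hQ0 : Q ≠ 0 := (Polynomial.map_ne_zero_iff emb_inj).mpr hq
  have hlead : 1 ≤ ‖Q.leadingCoeff‖ := by
    rw [hQ, leadingCoeff_map_of_injective emb_inj]
    exact Coef.one_le _ (leadingCoeff_ne_zero.mpr hq)
  have hconst : 1 ≤ ‖Q.coeff 0‖ := by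
    rw [hQ, coeff_map]
    exact Coef.one_le _ hq0
  have hM2 := mahlerMeasure_eq_leadingCoeff_mul_prod_roots Q
  rw [hM] at hM2
  have hprod1 : 1 ≤ (Q.roots.map (fun a ↦ max 1 ‖a‖)).prod := one_le_prod_max_one_norm_roots Q
  have hl1 : ‖Q.leadingCoeff‖ = 1 := by
    have := mul_le_mul_of_nonneg_left hprod1 (norm_nonneg Q.leadingCoeff)
    linarith
  rw [hl1, one_mul] at hM2
  have hr1 : ∀ r ∈ Q.roots, ‖r‖ ≤ 1 := by
    intro r hr
    by_contra hlt
    push Not at hlt
    obtain ⟨t, ht⟩ := Multiset.exists_cons_of_mem hr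
    rw [ht, Multiset.map_cons, Multiset.prod_cons] at hM2
    have h1 : 1 ≤ (t.map (fun a : ℂ ↦ max 1 ‖a‖)).prod := by
      apply Multiset.one_le_prod
      intro x hx
      obtain ⟨y, _, rfl⟩ := Multiset.mem_map.mp hx
      exact le_max_left _ _
    have h2 : 1 < max 1 ‖r‖ := lt_max_of_lt_right hlt
    nlinarith
  have hs := (IsAlgClosed.splits Q).coeff_zero_eq_leadingCoeff_mul_prod_roots
  have hnorm : ‖Q.coeff 0‖ = ‖Q.roots.prod‖ := by
    rw [hs]
    simp [hl1]
  have hroots : Q.roots = 0 := by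
    by_contra hne
    obtain ⟨r, hr⟩ := Multiset.exists_mem_of_ne_zero hne
    have h1 : ‖r‖ < 1 ∨ ‖r‖ = 1 := lt_or_eq_of_le (hr1 r hr)
    rcases h1 with h1 | h1
    · have h2 := prod_lt_one hr1 ⟨r, hr, h1⟩
      rw [hnorm] at hconst
      linarith
    · have h2 := hz (⟨r, mem_sphere_zero_iff_norm.mpr h1⟩ : Circle)
      apply h2
      rw [← norm_eq_zero, norm_evR_T_mul, norm_eq_zero]
      exact (mem_roots'.mp hr).2
  have hdeg : Q.natDegree = 0 := by
    rw [(IsAlgClosed.splits Q).natDegree_eq_card_roots, hroots, Multiset.card_zero]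
  have hdeg2 : q.natDegree = 0 := by
    rw [hQ, natDegree_map_eq_of_injective emb_inj] at hdeg
    exact hdeg
  have hqC : q = C (q.coeff 0) := eq_C_of_natDegree_eq_zero hdeg2
  have hu : IsUnit (q.coeff 0) := by
    apply unit_of_norm
    have h1 : q.leadingCoeff = q.coeff 0 := by
      rw [leadingCoeff, hdeg2]
    rw [← h1, ← leadingCoeff_map_of_injective emb_inj]
    exact hl1
  rw [hqC, Polynomial.toLaurent_C]
  exact (LaurentPolynomial.isUnit_T n).mul (hu.map (LaurentPolynomial.C))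

theorem mmo : MmonoS := by
  intro O _ _ _ _ p q c hp hq hc h
  obtain ⟨n, p', hp0, rfl⟩ := normalO p hp
  obtain ⟨m, q', hq0, rfl⟩ := normalO q hq
  have hp1 : p' ≠ 0 := by
    rintro rfl
    exact hp0 (by simp)
  have hq1 : q' ≠ 0 := by
    rintro rfl
    exact hq0 (by simp)
  rw [M_T_mul n p' hp1, M_T_mul m q' hq1]
  set P : ℂ[X] := p'.map (Coef.emb : O →+* ℂ) with hP
  set Q : ℂ[X] := q'.map (Coef.emb : O →+* ℂ) with hQ
  have hP0 : P ≠ 0 := (Polynomial.map_ne_zero_iff emb_inj).mpr hp1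
  have hQ0 : Q ≠ 0 := (Polynomial.map_ne_zero_iff emb_inj).mpr hq1
  have hle : ∀ z : ℂ, ‖z‖ = 1 → c * ‖Q.eval z‖ ≤ ‖P.eval z‖ := by
    intro z hz
    have h1 := h (⟨z, mem_sphere_zero_iff_norm.mpr hz⟩ : Circle)
    rw [norm_evR_T_mul, norm_evR_T_mul] at h1
    exact h1
  rw [mahlerMeasure_def_of_ne_zero hP0, mahlerMeasure_def_of_ne_zero hQ0]
  have hae : ∀ᵐ x : ℝ, Real.log c + Real.log ‖eval (circleMap 0 1 x) Q‖
      ≤ Real.log ‖eval (circleMap 0 1 x) P‖ := by
    have hfin : {z : ℂ | Q.eval z = 0}.Finite := by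
      have h1 := Q.roots.toFinset.finite_toSet
      refine h1.subset ?_
      intro z hz
      rw [Finset.mem_coe, Multiset.mem_toFinset, mem_roots hQ0]
      exact hz
    have hcount := (hfin.countable).preimage_circleMap 0 one_ne_zero
    filter_upwards [hcount.ae_notMem MeasureTheory.volume] with x hx
    have hx0 : Q.eval (circleMap 0 1 x) ≠ 0 := hx
    have h1 := hle (circleMap 0 1 x) (by simp)
    rw [← Real.log_mul hc.ne' (norm_ne_zero_iff.mpr hx0)]
    exact Real.log_le_log (mul_pos hc (norm_pos_iff.mpr hx0)) h1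
  have hint := intervalIntegral.integral_mono_ae (by positivity : (0 : ℝ) ≤ 2 * Real.pi)
    ((intervalIntegrable_const (c := Real.log c)).add Q.intervalIntegrable_mahlerMeasure)
    P.intervalIntegrable_mahlerMeasure hae
  rw [intervalIntegral.integral_add intervalIntegrable_const Q.intervalIntegrable_mahlerMeasure,
    intervalIntegral.integral_const, sub_zero, smul_eq_mul] at hint
  have hpi : 0 < 2 * Real.pi := by positivity
  have h2 := mul_le_mul_of_nonneg_left hint (inv_nonneg.mpr hpi.le)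
  rw [mul_add, ← mul_assoc, inv_mul_cancel₀ hpi.ne', one_mul] at h2
  have h3 := Real.exp_le_exp.mpr h2
  rw [Real.exp_add, Real.exp_log hc] at h3
  exact h3

end Pool.Agent.B5.H70
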